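import Pool.Agent.N929.ON.Stm

/-!
Project ON (helper929), part PASS (helper40): the path in a good pattern.
-/

set_option autoImplicit false

namespace Pool.Agent.N40.ON

open Pool.Agent.N929.ON

noncomputable section

theorem step_t {σ : ℤ × ℤ → Bool} {x y a b x' y' : ℤ} {k k' : Fin 6} (hd : dir (k + 1) = (a, b))
    (hk : k - 1 = k') (hx : x + a = x') (hy : y + b = y') (h : σ (x', y') = true) :
    step σ ((x, y), k) = ((x', y'), k') := by
  subst hk hx hy
  have h1 : front (((x, y), k) : St) = (x + a, y + b) := by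
    show (x, y) + dir (k + 1) = _
    rw [hd]
    rfl
  unfold step
  rw [h1, if_pos h]

theorem step_f {σ : ℤ × ℤ → Bool} {x y a b x' y' : ℤ} {k k' : Fin 6} (hd : dir (k + 1) = (a, b))
    (hk : k + 1 = k') (hx : x + a = x') (hy : y + b = y') (h : σ (x', y') = false) :
    step σ ((x, y), k) = ((x, y), k') := by
  subst hk hx hy
  have h1 : front (((x, y), k) : St) = (x + a, y + b) := by
    show (x, y) + dir (k + 1) = _
    rw [hd]
    rfl
  unfold step
  rw [h1, if_neg (by rw [h]; exact Bool.false_ne_true)]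

theorem front_le {x y z a b : ℤ} {k : Fin 6} (hd : dir (k + 1) = (a, b)) (h : y + b ≤ z) :
    (front ((x, y), k)).2 ≤ z := by
  have h1 : front (((x, y), k) : St) = (x + a, y + b) := by
    show (x, y) + dir (k + 1) = _
    rw [hd]
    rfl
  rw [h1]
  exact h

theorem it_succ {σ : ℤ × ℤ → Bool} {s t u : St} {i : ℕ} (h : (step σ)^[i] s = t)
    (h' : step σ t = u) : (step σ)^[i + 1] s = u := by
  rw [Function.iterate_succ_apply', h, h']

theorem touch {σ : ℤ × ℤ → Bool} {u v : ℤ} {s : St} (hv : Val σ s) (ht : Tch (u, v) s) :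
    (σ (u, v) = true ∧ ((s = ((u, v), 0) ∧ σ (u + 1, v) = false) ∨
      (s = ((u, v), 1) ∧ σ (u, v + 1) = false) ∨
      (s = ((u, v), 2) ∧ σ (u - 1, v + 1) = false) ∨
      (s = ((u, v), 3) ∧ σ (u - 1, v) = false) ∨
      (s = ((u, v), 4) ∧ σ (u, v - 1) = false) ∨
      (s = ((u, v), 5) ∧ σ (u + 1, v - 1) = false))) ∨
    (σ (u, v) = false ∧ ((s = ((u - 1, v), 0) ∧ σ (u - 1, v) = true) ∨
      (s = ((u, v - 1), 1) ∧ σ (u, v - 1) = true) ∨
      (s = ((u + 1, v - 1), 2) ∧ σ (u + 1, v - 1) = true) ∨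
      (s = ((u + 1, v), 3) ∧ σ (u + 1, v) = true) ∨
      (s = ((u, v + 1), 4) ∧ σ (u, v + 1) = true) ∨
      (s = ((u - 1, v + 1), 5) ∧ σ (u - 1, v + 1) = true))) ∨
    ((s = ((u, v - 1), 0) ∧ σ (u, v - 1) = true ∧ σ (u + 1, v - 1) = false) ∨
      (s = ((u + 1, v - 1), 1) ∧ σ (u + 1, v - 1) = true ∧ σ (u + 1, v) = false) ∨
      (s = ((u + 1, v), 2) ∧ σ (u + 1, v) = true ∧ σ (u, v + 1) = false) ∨
      (s = ((u, v + 1), 3) ∧ σ (u, v + 1) = true ∧ σ (u - 1, v + 1) = false) ∨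
      (s = ((u - 1, v + 1), 4) ∧ σ (u - 1, v + 1) = true ∧ σ (u - 1, v) = false) ∨
      (s = ((u - 1, v), 5) ∧ σ (u - 1, v) = true ∧ σ (u, v - 1) = false)) := by
  obtain ⟨⟨l, m⟩, k⟩ := s
  obtain ⟨hv1, hv2⟩ := hv
  have hr : ∀ (j : Fin 6) (a b l' m' : ℤ), dir j = (a, b) → l + a = l' → m + b = m' →
      (l, m) + dir j = (l', m') := by
    intro j a b l' m' h1 h2 h3
    rw [h1, ← h2, ← h3]
    rfl
  have hu : ∀ (j : Fin 6) (a b : ℤ), dir j = (a, b) → (l, m) + dir j = (u, v) →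
      l = u - a ∧ m = v - b := by
    intro j a b h1 h2
    rw [h1] at h2
    have h3 := congrArg Prod.fst h2
    have h4 := congrArg Prod.snd h2
    simp only [Prod.fst_add, Prod.snd_add] at h3 h4
    constructor <;> linarith
  rcases ht with h | h | h
  · have e : l = u ∧ m = v := by
      have h3 := congrArg Prod.fst h
      have h4 := congrArg Prod.snd h
      exact ⟨h3, h4⟩
    obtain ⟨rfl, rfl⟩ := e
    left
    refine ⟨hv1, ?_⟩
    fin_cases k
    · exact Or.inl ⟨rfl, by rw [← hr 0 1 0 _ _ rfl rfl (add_zero m)]; exact hv2⟩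
    · exact Or.inr (Or.inl ⟨rfl, by rw [← hr 1 0 1 _ _ rfl (add_zero l) rfl]; exact hv2⟩)
    · exact Or.inr (Or.inr (Or.inl ⟨rfl, by
        rw [← hr 2 (-1) 1 (l - 1) _ rfl (by ring) rfl]; exact hv2⟩))
    · exact Or.inr (Or.inr (Or.inr (Or.inl ⟨rfl, by
        rw [← hr 3 (-1) 0 (l - 1) _ rfl (by ring) (add_zero m)]; exact hv2⟩)))
    · exact Or.inr (Or.inr (Or.inr (Or.inr (Or.inl ⟨rfl, by
        rw [← hr 4 0 (-1) _ (m - 1) rfl (add_zero l) (by ring)]; exact hv2⟩))))
    · exact Or.inr (Or.inr (Or.inr (Or.inr (Or.inr ⟨rfl, by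
        rw [← hr 5 1 (-1) _ (m - 1) rfl rfl (by ring)]; exact hv2⟩))))
  · right; left
    have hv3 : σ (u, v) = false := by
      rw [← h]
      exact hv2
    refine ⟨hv3, ?_⟩
    have h' : (l, m) + dir k = (u, v) := h
    fin_cases k
    · obtain ⟨e1, e2⟩ := hu 0 1 0 rfl h'
      rw [sub_zero] at e2
      subst e1 e2
      exact Or.inl ⟨rfl, hv1⟩
    · obtain ⟨e1, e2⟩ := hu 1 0 1 rfl h'
      rw [sub_zero] at e1
      subst e1 e2
      exact Or.inr (Or.inl ⟨rfl, hv1⟩)
    · obtain ⟨e1, e2⟩ := hu 2 (-1) 1 rfl h'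
      rw [sub_neg_eq_add] at e1
      subst e1 e2
      exact Or.inr (Or.inr (Or.inl ⟨rfl, hv1⟩))
    · obtain ⟨e1, e2⟩ := hu 3 (-1) 0 rfl h'
      rw [sub_neg_eq_add] at e1
      rw [sub_zero] at e2
      subst e1 e2
      exact Or.inr (Or.inr (Or.inr (Or.inl ⟨rfl, hv1⟩)))
    · obtain ⟨e1, e2⟩ := hu 4 0 (-1) rfl h'
      rw [sub_zero] at e1
      rw [sub_neg_eq_add] at e2
      subst e1 e2
      exact Or.inr (Or.inr (Or.inr (Or.inr (Or.inl ⟨rfl, hv1⟩))))
    · obtain ⟨e1, e2⟩ := hu 5 1 (-1) rfl h'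
      rw [sub_neg_eq_add] at e2
      subst e1 e2
      exact Or.inr (Or.inr (Or.inr (Or.inr (Or.inr ⟨rfl, hv1⟩))))
  · right; right
    have h' : (l, m) + dir (k + 1) = (u, v) := h
    fin_cases k
    · obtain ⟨e1, e2⟩ := hu 1 0 1 rfl h'
      rw [sub_zero] at e1
      subst e1 e2
      exact Or.inl ⟨rfl, hv1, by rw [← hr 0 1 0 _ _ rfl rfl (add_zero _)]; exact hv2⟩
    · obtain ⟨e1, e2⟩ := hu 2 (-1) 1 rfl h'
      rw [sub_neg_eq_add] at e1
      subst e1 e2
      exact Or.inr (Or.inl ⟨rfl, hv1, by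
        rw [← hr 1 0 1 (u + 1) v rfl (add_zero _) (by ring)]; exact hv2⟩)
    · obtain ⟨e1, e2⟩ := hu 3 (-1) 0 rfl h'
      rw [sub_neg_eq_add] at e1
      rw [sub_zero] at e2
      subst e1 e2
      exact Or.inr (Or.inr (Or.inl ⟨rfl, hv1, by
        rw [← hr 2 (-1) 1 u _ rfl (by ring) rfl]; exact hv2⟩))
    · obtain ⟨e1, e2⟩ := hu 4 0 (-1) rfl h'
      rw [sub_zero] at e1
      rw [sub_neg_eq_add] at e2
      subst e1 e2
      exact Or.inr (Or.inr (Or.inr (Or.inl ⟨rfl, hv1, by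
        rw [← hr 3 (-1) 0 (l - 1) _ rfl (by ring) (add_zero _)]; exact hv2⟩)))
    · obtain ⟨e1, e2⟩ := hu 5 1 (-1) rfl h'
      rw [sub_neg_eq_add] at e2
      subst e1 e2
      exact Or.inr (Or.inr (Or.inr (Or.inr (Or.inl ⟨rfl, hv1, by
        rw [← hr 4 0 (-1) (u - 1) v rfl (add_zero _) (by ring)]; exact hv2⟩))))
    · obtain ⟨e1, e2⟩ := hu 0 1 0 rfl h'
      rw [sub_zero] at e2
      subst e1 e2
      exact Or.inr (Or.inr (Or.inr (Or.inr (Or.inr ⟨rfl, hv1, by
        rw [← hr 5 1 (-1) u (m - 1) rfl (by ring) (by ring)]; exact hv2⟩))))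

/-- the pattern inside the domain, short -/
theorem caseA_f {σ : ℤ × ℤ → Bool} {x y : ℤ} (g1 : σ (x, y + 1) = true) (g2 : σ (x, y + 2) = true)
    (g3 : σ (x, y + 3) = true) (g4 : σ (x + 1, y + 1) = false) (g5 : σ (x + 2, y + 1) = false)
    (g6 : σ (x + 2, y + 2) = false) (g7 : σ (x + 1, y + 3) = false)
    (hf : σ (x + 1, y + 2) = false) :
    (step σ)^[6] ((x, y), 0) = ((x, y + 3), 0) ∧
    (∀ i < 6, (front ((step σ)^[i] ((x, y), 0))).2 ≤ y + 3) ∧
    ∀ s, Val σ s → Tch (x + 1, y + 2) s → ∃ i < 6, (step σ)^[i] ((x, y), 0) = s := by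
  have h0 : (step σ)^[0] ((x, y), 0) = ((x, y), 0) := rfl
  have h1 : (step σ)^[1] ((x, y), 0) = ((x, y + 1), 5) :=
    it_succ h0 (step_t (a := 0) (b := 1) rfl rfl (by ring) (by ring) g1)
  have h2 : (step σ)^[2] ((x, y), 0) = ((x, y + 1), 0) :=
    it_succ h1 (step_f (a := 1) (b := 0) rfl rfl (by ring) (by ring) g4)
  have h3 : (step σ)^[3] ((x, y), 0) = ((x, y + 2), 5) :=
    it_succ h2 (step_t (a := 0) (b := 1) rfl rfl (by ring) (by ring) g2)
  have h4 : (step σ)^[4] ((x, y), 0) = ((x, y + 2), 0) :=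
    it_succ h3 (step_f (a := 1) (b := 0) rfl rfl (by ring) (by ring) hf)
  have h5 : (step σ)^[5] ((x, y), 0) = ((x, y + 3), 5) :=
    it_succ h4 (step_t (a := 0) (b := 1) rfl rfl (by ring) (by ring) g3)
  have h6 : (step σ)^[6] ((x, y), 0) = ((x, y + 3), 0) :=
    it_succ h5 (step_f (a := 1) (b := 0) rfl rfl (by ring) (by ring) g7)
  refine ⟨h6, ?_, ?_⟩
  · intro i hi
    interval_cases i
    · rw [h0]; exact front_le (a := 0) (b := 1) rfl (by linarith)
    · rw [h1]; exact front_le (a := 1) (b := 0) rfl (by linarith)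
    · rw [h2]; exact front_le (a := 0) (b := 1) rfl (by linarith)
    · rw [h3]; exact front_le (a := 1) (b := 0) rfl (by linarith)
    · rw [h4]; exact front_le (a := 0) (b := 1) rfl (by linarith)
    · rw [h5]; exact front_le (a := 1) (b := 0) rfl (by linarith)
  · intro s hv ht
    have ht' := touch hv ht
    rw [show x + 1 - 1 = x by ring, show x + 1 + 1 = x + 2 by ring, show y + 2 - 1 = y + 1 by ring,
      show y + 2 + 1 = y + 3 by ring, g2, g3, g4, g5, g6, g7, hf] at ht'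
    simp only [Bool.false_eq_true, Bool.true_eq_false, and_false, false_and, or_false, false_or,
      and_true, true_and] at ht'
    rcases ht' with (rfl | rfl) | rfl
    · exact ⟨4, by norm_num, h4⟩
    · exact ⟨5, by norm_num, h5⟩
    · exact ⟨3, by norm_num, h3⟩

/-- the pattern inside the domain, long -/
theorem caseA_t {σ : ℤ × ℤ → Bool} {x y : ℤ} (g1 : σ (x, y + 1) = true) (g2 : σ (x, y + 2) = true)
    (g3 : σ (x, y + 3) = true) (g4 : σ (x + 1, y + 1) = false) (g5 : σ (x + 2, y + 1) = false)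
    (g6 : σ (x + 2, y + 2) = false) (g7 : σ (x + 1, y + 3) = false)
    (hf : σ (x + 1, y + 2) = true) :
    (step σ)^[8] ((x, y), 0) = ((x, y + 3), 0) ∧
    (∀ i < 8, (front ((step σ)^[i] ((x, y), 0))).2 ≤ y + 3) ∧
    ∀ s, Val σ s → Tch (x + 1, y + 2) s → ∃ i < 8, (step σ)^[i] ((x, y), 0) = s := by
  have h0 : (step σ)^[0] ((x, y), 0) = ((x, y), 0) := rfl
  have h1 : (step σ)^[1] ((x, y), 0) = ((x, y + 1), 5) :=
    it_succ h0 (step_t (a := 0) (b := 1) rfl rfl (by ring) (by ring) g1)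
  have h2 : (step σ)^[2] ((x, y), 0) = ((x, y + 1), 0) :=
    it_succ h1 (step_f (a := 1) (b := 0) rfl rfl (by ring) (by ring) g4)
  have h3 : (step σ)^[3] ((x, y), 0) = ((x, y + 2), 5) :=
    it_succ h2 (step_t (a := 0) (b := 1) rfl rfl (by ring) (by ring) g2)
  have h4 : (step σ)^[4] ((x, y), 0) = ((x + 1, y + 2), 4) :=
    it_succ h3 (step_t (a := 1) (b := 0) rfl rfl (by ring) (by ring) hf)
  have h5 : (step σ)^[5] ((x, y), 0) = ((x + 1, y + 2), 5) :=
    it_succ h4 (step_f (a := 1) (b := -1) rfl rfl (by ring) (by ring) g5)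
  have h6 : (step σ)^[6] ((x, y), 0) = ((x + 1, y + 2), 0) :=
    it_succ h5 (step_f (a := 1) (b := 0) rfl rfl (by ring) (by ring) g6)
  have h7 : (step σ)^[7] ((x, y), 0) = ((x + 1, y + 2), 1) :=
    it_succ h6 (step_f (a := 0) (b := 1) rfl rfl (by ring) (by ring) g7)
  have h8 : (step σ)^[8] ((x, y), 0) = ((x, y + 3), 0) :=
    it_succ h7 (step_t (a := -1) (b := 1) rfl rfl (by ring) (by ring) g3)
  refine ⟨h8, ?_, ?_⟩
  · intro i hi
    interval_cases i
    · rw [h0]; exact front_le (a := 0) (b := 1) rfl (by linarith)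
    · rw [h1]; exact front_le (a := 1) (b := 0) rfl (by linarith)
    · rw [h2]; exact front_le (a := 0) (b := 1) rfl (by linarith)
    · rw [h3]; exact front_le (a := 1) (b := 0) rfl (by linarith)
    · rw [h4]; exact front_le (a := 1) (b := -1) rfl (by linarith)
    · rw [h5]; exact front_le (a := 1) (b := 0) rfl (by linarith)
    · rw [h6]; exact front_le (a := 0) (b := 1) rfl (by linarith)
    · rw [h7]; exact front_le (a := -1) (b := 1) rfl (by linarith)
  · intro s hv ht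
    have ht' := touch hv ht
    rw [show x + 1 - 1 = x by ring, show x + 1 + 1 = x + 2 by ring, show y + 2 - 1 = y + 1 by ring,
      show y + 2 + 1 = y + 3 by ring, g2, g3, g4, g5, g6, g7, hf] at ht'
    simp only [Bool.false_eq_true, Bool.true_eq_false, and_false, false_and, or_false, false_or,
      and_true, true_and] at ht'
    rcases ht' with (rfl | rfl | rfl | rfl) | rfl
    · exact ⟨6, by norm_num, h6⟩
    · exact ⟨7, by norm_num, h7⟩
    · exact ⟨4, by norm_num, h4⟩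
    · exact ⟨5, by norm_num, h5⟩
    · exact ⟨3, by norm_num, h3⟩

/-- the pattern at the right side, short -/
theorem caseB_t {σ : ℤ × ℤ → Bool} {x y : ℤ} (g1 : σ (x, y + 1) = true)
    (g2 : σ (x - 1, y + 2) = true) (g3 : σ (x - 1, y + 3) = true) (g4 : σ (x, y + 3) = true)
    (g5 : σ (x + 1, y + 1) = false) (g6 : σ (x + 1, y + 2) = false)
    (g7 : σ (x + 1, y + 3) = false) (hf : σ (x, y + 2) = true) :
    (step σ)^[6] ((x, y), 0) = ((x, y + 3), 0) ∧
    (∀ i < 6, (front ((step σ)^[i] ((x, y), 0))).2 ≤ y + 3) ∧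
    ∀ s, Val σ s → Tch (x, y + 2) s → ∃ i < 6, (step σ)^[i] ((x, y), 0) = s := by
  have h0 : (step σ)^[0] ((x, y), 0) = ((x, y), 0) := rfl
  have h1 : (step σ)^[1] ((x, y), 0) = ((x, y + 1), 5) :=
    it_succ h0 (step_t (a := 0) (b := 1) rfl rfl (by ring) (by ring) g1)
  have h2 : (step σ)^[2] ((x, y), 0) = ((x, y + 1), 0) :=
    it_succ h1 (step_f (a := 1) (b := 0) rfl rfl (by ring) (by ring) g5)
  have h3 : (step σ)^[3] ((x, y), 0) = ((x, y + 2), 5) :=
    it_succ h2 (step_t (a := 0) (b := 1) rfl rfl (by ring) (by ring) hf)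
  have h4 : (step σ)^[4] ((x, y), 0) = ((x, y + 2), 0) :=
    it_succ h3 (step_f (a := 1) (b := 0) rfl rfl (by ring) (by ring) g6)
  have h5 : (step σ)^[5] ((x, y), 0) = ((x, y + 3), 5) :=
    it_succ h4 (step_t (a := 0) (b := 1) rfl rfl (by ring) (by ring) g4)
  have h6 : (step σ)^[6] ((x, y), 0) = ((x, y + 3), 0) :=
    it_succ h5 (step_f (a := 1) (b := 0) rfl rfl (by ring) (by ring) g7)
  refine ⟨h6, ?_, ?_⟩
  · intro i hi
    interval_cases i
    · rw [h0]; exact front_le (a := 0) (b := 1) rfl (by linarith)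
    · rw [h1]; exact front_le (a := 1) (b := 0) rfl (by linarith)
    · rw [h2]; exact front_le (a := 0) (b := 1) rfl (by linarith)
    · rw [h3]; exact front_le (a := 1) (b := 0) rfl (by linarith)
    · rw [h4]; exact front_le (a := 0) (b := 1) rfl (by linarith)
    · rw [h5]; exact front_le (a := 1) (b := 0) rfl (by linarith)
  · intro s hv ht
    have ht' := touch hv ht
    rw [show y + 2 - 1 = y + 1 by ring,
      show y + 2 + 1 = y + 3 by ring, g1, g2, g3, g4, g5, g6, hf] at ht'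
    simp only [Bool.false_eq_true, Bool.true_eq_false, and_false, false_and, or_false, false_or,
      and_true, true_and] at ht'
    rcases ht' with (rfl | rfl) | rfl
    · exact ⟨4, by norm_num, h4⟩
    · exact ⟨3, by norm_num, h3⟩
    · exact ⟨2, by norm_num, h2⟩

/-- the pattern at the right side, long -/
theorem caseB_f {σ : ℤ × ℤ → Bool} {x y : ℤ} (g1 : σ (x, y + 1) = true)
    (g2 : σ (x - 1, y + 2) = true) (g3 : σ (x - 1, y + 3) = true) (g4 : σ (x, y + 3) = true)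
    (g5 : σ (x + 1, y + 1) = false) (g6 : σ (x + 1, y + 2) = false)
    (g7 : σ (x + 1, y + 3) = false) (hf : σ (x, y + 2) = false) :
    (step σ)^[8] ((x, y), 0) = ((x, y + 3), 0) ∧
    (∀ i < 8, (front ((step σ)^[i] ((x, y), 0))).2 ≤ y + 3) ∧
    ∀ s, Val σ s → Tch (x, y + 2) s → ∃ i < 8, (step σ)^[i] ((x, y), 0) = s := by
  have h0 : (step σ)^[0] ((x, y), 0) = ((x, y), 0) := rfl
  have h1 : (step σ)^[1] ((x, y), 0) = ((x, y + 1), 5) :=
    it_succ h0 (step_t (a := 0) (b := 1) rfl rfl (by ring) (by ring) g1)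
  have h2 : (step σ)^[2] ((x, y), 0) = ((x, y + 1), 0) :=
    it_succ h1 (step_f (a := 1) (b := 0) rfl rfl (by ring) (by ring) g5)
  have h3 : (step σ)^[3] ((x, y), 0) = ((x, y + 1), 1) :=
    it_succ h2 (step_f (a := 0) (b := 1) rfl rfl (by ring) (by ring) hf)
  have h4 : (step σ)^[4] ((x, y), 0) = ((x - 1, y + 2), 0) :=
    it_succ h3 (step_t (a := -1) (b := 1) rfl rfl (by ring) (by ring) g2)
  have h5 : (step σ)^[5] ((x, y), 0) = ((x - 1, y + 3), 5) :=
    it_succ h4 (step_t (a := 0) (b := 1) rfl rfl (by ring) (by ring) g3)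
  have h6 : (step σ)^[6] ((x, y), 0) = ((x, y + 3), 4) :=
    it_succ h5 (step_t (a := 1) (b := 0) rfl rfl (by ring) (by ring) g4)
  have h7 : (step σ)^[7] ((x, y), 0) = ((x, y + 3), 5) :=
    it_succ h6 (step_f (a := 1) (b := -1) rfl rfl (by ring) (by ring) g6)
  have h8 : (step σ)^[8] ((x, y), 0) = ((x, y + 3), 0) :=
    it_succ h7 (step_f (a := 1) (b := 0) rfl rfl (by ring) (by ring) g7)
  refine ⟨h8, ?_, ?_⟩
  · intro i hi
    interval_cases i
    · rw [h0]; exact front_le (a := 0) (b := 1) rfl (by linarith)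
    · rw [h1]; exact front_le (a := 1) (b := 0) rfl (by linarith)
    · rw [h2]; exact front_le (a := 0) (b := 1) rfl (by linarith)
    · rw [h3]; exact front_le (a := -1) (b := 1) rfl (by linarith)
    · rw [h4]; exact front_le (a := 0) (b := 1) rfl (by linarith)
    · rw [h5]; exact front_le (a := 1) (b := 0) rfl (by linarith)
    · rw [h6]; exact front_le (a := 1) (b := -1) rfl (by linarith)
    · rw [h7]; exact front_le (a := 1) (b := 0) rfl (by linarith)
  · intro s hv ht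
    have ht' := touch hv ht
    rw [show y + 2 - 1 = y + 1 by ring,
      show y + 2 + 1 = y + 3 by ring, g1, g2, g3, g4, g5, g6, hf] at ht'
    simp only [Bool.false_eq_true, Bool.true_eq_false, and_false, false_and, or_false, false_or,
      and_true, true_and] at ht'
    rcases ht' with (rfl | rfl | rfl | rfl) | rfl
    · exact ⟨4, by norm_num, h4⟩
    · exact ⟨3, by norm_num, h3⟩
    · exact ⟨6, by norm_num, h6⟩
    · exact ⟨5, by norm_num, h5⟩
    · exact ⟨2, by norm_num, h2⟩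

theorem pass : S_PASS := by
  intro W σ x y hG p hp
  unfold Good at hG
  unfold Lng at hp
  by_cases hx : x < W
  · rw [if_pos hx] at hG hp
    have htf : tf W x y = (x + 1, y + 2) := by
      unfold tf
      rw [if_pos hx]
    rw [htf] at hp ⊢
    obtain ⟨g1, g2, g3, g4, g5, g6, g7⟩ := hG
    by_cases hf : σ (x + 1, y + 2) = true
    · rw [if_pos hf] at hp
      subst hp
      exact caseA_t g1 g2 g3 g4 g5 g6 g7 hf
    · rw [if_neg hf] at hp
      subst hp
      exact caseA_f g1 g2 g3 g4 g5 g6 g7 (Bool.eq_false_iff.2 hf)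
  · rw [if_neg hx] at hG hp
    have htf : tf W x y = (x, y + 2) := by
      unfold tf
      rw [if_neg hx]
    rw [htf] at hp ⊢
    obtain ⟨g1, g2, g3, g4, g5, g6, g7⟩ := hG
    by_cases hf : σ (x, y + 2) = true
    · rw [if_neg (by simp [hf])] at hp
      subst hp
      exact caseB_t g1 g2 g3 g4 g5 g6 g7 hf
    · rw [if_pos (Bool.eq_false_iff.2 hf)] at hp
      subst hp
      exact caseB_f g1 g2 g3 g4 g5 g6 g7 (Bool.eq_false_iff.2 hf)

end

end Pool.Agent.N40.ON
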